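import Pool.Agent.Lib.MP_a31e1e_gt.H24.Pre2
import Pool.Agent.Lib.MP_a31e1e_gt.H42.FloorEsc
import Pool.Agent.Lib.MP_a31e1e_gt.H99.CWBdry

/-!
# The main theorem (project TIGHT)
-/

namespace Pool.Agent.Tight

theorem main : MainStatement :=
  main_of_two (H42.floorEscape H27.floorReg)
    (H99.cwBdry H88.kite H88.arcs H27.floorReg H75.floorInj)

end Pool.Agent.Tight
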