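import Pool.Agent.Lib.MP_a31e1e_gt.Interfaces

open scoped ContDiff Manifold Topology RealInnerProductSpace
open Set Metric Filter

namespace Pool.Agent.Tight.H24

open Pool.Agent.Tight

/-! ### elementary estimates -/

lemma cc_sq_le (x : E3) : cc x ^ 2 ≤ nn x ^ 3 := by
  simp only [cc, nn]
  nlinarith [sq_nonneg (x 0 ^ 3 - 3 * x 0 * x 1 ^ 2)]

lemma nn_nonneg (x : E3) : 0 ≤ nn x := by simp only [nn]; positivity

lemma cc_small {x : E3} (h : nn x ≤ 1 / 100) : |cc x| ≤ nn x / 10 := by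
  apply abs_le_of_sq_le_sq
  · have h0 := nn_nonneg x
    have h1 := cc_sq_le x
    have h2 : nn x ^ 3 ≤ (nn x / 10) ^ 2 := by nlinarith [mul_nonneg h0 h0]
    linarith
  · have := nn_nonneg x; positivity

/-- points close to the floor -/
lemma floor_facts {x : E3} (hn : nn x ≤ 1 / 100) (hw : |x 2 + 1| ≤ 1 / 8) :
    x ∈ PrismO ∧ mm x < 0 ∧ Lam x < 0 := by
  have h0 : x 0 ^ 2 ≤ 1 / 100 := by
    have : nn x = x 0 ^ 2 + x 1 ^ 2 := rfl
    nlinarith [sq_nonneg (x 1)]
  have h1 : x 1 ^ 2 ≤ 1 / 100 := by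
    have : nn x = x 0 ^ 2 + x 1 ^ 2 := rfl
    nlinarith [sq_nonneg (x 0)]
  have a0 : |x 0| ≤ 1 / 10 := abs_le_of_sq_le_sq (by linarith) (by norm_num)
  have a1 : |x 1| ≤ 1 / 10 := abs_le_of_sq_le_sq (by linarith) (by norm_num)
  rw [abs_le] at a0 a1 hw
  have h3 : √3 ≤ 2 := by
    rw [Real.sqrt_le_left (by norm_num)]; norm_num
  have h3' : 0 ≤ √3 := Real.sqrt_nonneg 3
  have hb : |√3 * x 0| ≤ 1 / 5 := by
    rw [abs_mul, abs_of_nonneg h3']
    have : |x 0| ≤ 1 / 10 := abs_le.mpr a0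
    nlinarith [abs_nonneg (x 0)]
  rw [abs_le] at hb
  have hm : mm x < 0 := by
    simp only [mm]
    nlinarith [hw.1, hw.2]
  refine ⟨?_, hm, ?_⟩
  · intro j
    fin_cases j
    · show 0 < 1 - x 1
      linarith
    · show 0 < 1 + (x 1 + √3 * x 0) / 2
      linarith [hb.1]
    · show 0 < 1 + (x 1 - √3 * x 0) / 2
      linarith [hb.2]
  · have := Real.sqrt_nonneg (tt x)
    simp only [Lam]
    linarith

lemma sqrt_tt_bounds {x : E3} (hn : nn x ≤ 1 / 100) : 19 / 10 ≤ √(tt x) ∧ √(tt x) ≤ 2 := by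
  have h := cc_small hn
  have h0 := nn_nonneg x
  rw [abs_le] at h
  constructor
  · apply Real.le_sqrt_of_sq_le
    simp only [tt]; nlinarith [h.1, h.2]
  · rw [Real.sqrt_le_left (by norm_num)]
    simp only [tt]; nlinarith [h.1, h.2]

/-- for small `nn`, a point of `FS = 0` with `w` close to `-1` is on the floor -/
lemma FS_floor (hreg : SigRegStatement) {x : E3} (hF : FS x = 0) (hn : nn x ≤ 1 / 1000)
    (hw : x 2 < 0) (hm : mm x < 0) : x 2 = hS x ∧ |x 2 + 1| < 1 / 8 := by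
  obtain ⟨-, -, -, -, -, -, -, h8⟩ := hreg
  have hn' : nn x ≤ 1 / 100 := by linarith
  have hb := sqrt_tt_bounds hn'
  have h0 := nn_nonneg x
  have hc := cc_small hn'
  rw [abs_le] at hc
  -- finer bound on the square root
  have hs : 199 / 100 ≤ √(tt x) := by
    apply Real.le_sqrt_of_sq_le
    simp only [tt]; nlinarith [hc.1, hc.2]
  rcases h8 x hF hn' with h | h
  · have hq : 0 ≤ qq x := by rw [← h]; positivity
    have hw2 : x 2 = - √(qq x) := by
      rw [← h, Real.sqrt_sq_eq_abs, abs_of_neg hw]; ring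
    refine ⟨hw2, ?_⟩
    have h1 : 49 / 50 ≤ qq x := by
      simp only [qq]; linarith [hb.2]
    have h2 : qq x ≤ 26 / 25 := by
      simp only [qq]; linarith
    have h3 : (99 / 100 - 1 / 50) ≤ √(qq x) := by
      apply Real.le_sqrt_of_sq_le; nlinarith
    have h4 : √(qq x) ≤ 103 / 100 := by
      rw [Real.sqrt_le_left (by norm_num)]; nlinarith
    rw [hw2, abs_lt]
    constructor <;> linarith
  · exfalso
    have h1 : mm x = 4 * √(tt x) := by
      simp only [mm, h, qo]; ring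
    linarith [hb.1]

lemma hS_congr {x y : E3} (h0 : x 0 = y 0) (h1 : x 1 = y 1) : hS x = hS y := by
  simp only [hS, qq, nn, tt, cc, h0, h1]

lemma nn_congr {x y : E3} (h0 : x 0 = y 0) (h1 : x 1 = y 1) : nn x = nn y := by
  simp only [nn, h0, h1]

lemma floorX_0 (ρ l : ℝ) (b : E2) : floorX ρ l b 0 = l * xiX b := by simp [floorX]
lemma floorX_1 (ρ l : ℝ) (b : E2) : floorX ρ l b 1 = l * xiY b := by simp [floorX]

lemma par_small {ρ l : ℝ} (hp : Par ρ l) : 4 * ρ ^ 2 ≤ 1 / 1000 := by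
  have := hp.hρ; have := hp.hρ'; nlinarith

/-- a point of the circle `nn = 4ρ²` on the floor of `Sigma` lies on the parametrised floor -/
lemma circle_floor (hreg : SigRegStatement) (hfl : FloorRegStatement) {ρ l : ℝ} (hp : Par ρ l)
    {x : E3} (hF : FS x = 0) (hn : nn x = 4 * ρ ^ 2) (hw : |x 2 + 1| ≤ 1 / 8) :
    ∃ b, nn (floorX ρ l b) ≤ 4 * ρ ^ 2 ∧ ((x, 0) : E3 × ℂ) = floorP ρ l b := by
  obtain ⟨-, -, -, f4, f5, -⟩ := hfl ρ l hp
  obtain ⟨b, hb0, hb1⟩ := f5 x
  have e0 : floorX ρ l b 0 = x 0 := by rw [floorX_0, hb0]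
  have e1 : floorX ρ l b 1 = x 1 := by rw [floorX_1, hb1]
  have hnb : nn (floorX ρ l b) = 4 * ρ ^ 2 := by rw [nn_congr e0 e1, hn]
  have hs := par_small hp
  have hρ2 : 0 < ρ ^ 2 := by have := hp.hρ; positivity
  obtain ⟨-, -, h3⟩ := f4 b (by rw [hnb]) (by rw [hnb]; linarith)
  have hm := (floor_facts (x := x) (by linarith) hw).2.1
  have hneg : x 2 < 0 := by rw [abs_le] at hw; linarith [hw.2]
  have h2 := (FS_floor hreg hF (by linarith) hneg hm).1
  have e2 : floorX ρ l b 2 = x 2 := by rw [h3, h2]; exact hS_congr e0 e1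
  have ex : floorX ρ l b = x := by
    ext i; fin_cases i
    · exact e0
    · exact e1
    · exact e2
  refine ⟨b, hnb.le, ?_⟩
  have hl : lab ρ l b = 0 := by
    have : max (ρ ^ 2 / 16 - nn (floorX ρ l b)) 0 = 0 := by
      rw [max_eq_right]; rw [hnb]; linarith
    simp [lab, this]
  simp [floorP, ex, hl]

/-- the two kinds of points of the surface -/
lemma surf_cases (hreg : SigRegStatement) (hfl : FloorRegStatement) {ρ l : ℝ} (hp : Par ρ l)
    {z : E3 × ℂ} (hz : z ∈ Surf ρ l) :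
    (∃ b, nn (floorX ρ l b) ≤ 4 * ρ ^ 2 ∧ z = floorP ρ l b) ∨
    (z.1 ∈ SigPart ρ ∧ z.2 = 0 ∧ (4 * ρ ^ 2 < nn z.1 ∨ 1 / 8 < |z.1 2 + 1|)) := by
  rcases hz with h | ⟨h, h0⟩
  · exact Or.inl h
  · by_cases hc : 4 * ρ ^ 2 < nn z.1 ∨ 1 / 8 < |z.1 2 + 1|
    · exact Or.inr ⟨h, h0, hc⟩
    · push Not at hc
      obtain ⟨hF, hn4, hor⟩ := h
      have hs := par_small hp
      have hff := floor_facts (x := z.1) (by linarith [hc.1]) hc.2
      have hneg : z.1 2 < 0 := by
        have := hc.2; rw [abs_le] at this; linarith [this.2]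
      have hlt := (FS_floor hreg hF (by linarith [hc.1]) hneg hff.2.1).2
      have hn : nn z.1 = 4 * ρ ^ 2 := by
        rcases hor with h | h
        · exact le_antisymm hc.1 h
        · exact absurd h (not_le.mpr hlt)
      left
      obtain ⟨b, hb, hb'⟩ := circle_floor hreg hfl hp hF hn hc.2
      refine ⟨b, hb, ?_⟩
      rw [← hb']
      exact Prod.ext rfl h0

lemma floor_pt (hfl : FloorRegStatement) {ρ l : ℝ} (hp : Par ρ l) {b : E2}
    (hb : nn (floorX ρ l b) ≤ 4 * ρ ^ 2) :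
    floorX ρ l b ∈ PrismO ∧ mm (floorX ρ l b) < 0 ∧ Lam (floorX ρ l b) < 0 := by
  obtain ⟨f1, -⟩ := hfl ρ l hp
  have hs := par_small hp
  have hρ2 : 0 < ρ ^ 2 := by have := hp.hρ; positivity
  exact floor_facts (by linarith) (f1 b (by linarith)).2.2.le

lemma tt_pos_of_prismO (hreg : SigRegStatement) {x : E3} (hx : x ∈ PrismO) : 0 < tt x := by
  rw [hreg.1 x]
  have := hx 0; have := hx 1; have := hx 2
  positivity

/-! ### the cycles -/

noncomputable def cy (j : Fin 3) (θ : ℝ) : E3 :=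
  match j with
  | 0 => !₂[√2 * Real.cos θ, 1, √6 * Real.sin θ]
  | 1 => !₂[-√3 / 2 - √2 * Real.cos θ / 2, -1 / 2 + √3 * (√2 * Real.cos θ) / 2, √6 * Real.sin θ]
  | 2 => !₂[√3 / 2 + √2 * Real.cos θ / 2, -1 / 2 + √3 * (√2 * Real.cos θ) / 2, √6 * Real.sin θ]

lemma cy_cont (j : Fin 3) : Continuous (cy j) := by
  fin_cases j
  · show Continuous fun θ => (!₂[√2 * Real.cos θ, 1, √6 * Real.sin θ] : E3)
    refine (PiLp.continuous_toLp 2 _).comp ?_
    refine continuous_pi fun i => ?_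
    fin_cases i <;> simp <;> fun_prop
  · show Continuous fun θ => (!₂[-√3 / 2 - √2 * Real.cos θ / 2,
      -1 / 2 + √3 * (√2 * Real.cos θ) / 2, √6 * Real.sin θ] : E3)
    refine (PiLp.continuous_toLp 2 _).comp ?_
    refine continuous_pi fun i => ?_
    fin_cases i <;> simp <;> fun_prop
  · show Continuous fun θ => (!₂[√3 / 2 + √2 * Real.cos θ / 2,
      -1 / 2 + √3 * (√2 * Real.cos θ) / 2, √6 * Real.sin θ] : E3)
    refine (PiLp.continuous_toLp 2 _).comp ?_
    refine continuous_pi fun i => ?_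
    fin_cases i <;> simp <;> fun_prop

lemma exists_angle {a b : ℝ} (h : a ^ 2 + b ^ 2 = 1) : ∃ θ, Real.cos θ = a ∧ Real.sin θ = b := by
  have ha1 : -1 ≤ a := by nlinarith [sq_nonneg b, sq_nonneg (a - 1)]
  have ha2 : a ≤ 1 := by nlinarith [sq_nonneg b, sq_nonneg (a + 1)]
  rcases le_total 0 b with hb | hb
  · refine ⟨Real.arccos a, Real.cos_arccos ha1 ha2, ?_⟩
    rw [Real.sin_arccos, show 1 - a ^ 2 = b ^ 2 by linarith, Real.sqrt_sq hb]
  · refine ⟨-Real.arccos a, by rw [Real.cos_neg, Real.cos_arccos ha1 ha2], ?_⟩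
    rw [Real.sin_neg, Real.sin_arccos, show 1 - a ^ 2 = (-b) ^ 2 by linarith,
      Real.sqrt_sq (by linarith)]
    ring

lemma sq_sqrt3 : √3 ^ 2 = 3 := Real.sq_sqrt (by norm_num)
lemma sq_sqrt2 : √2 ^ 2 = 2 := Real.sq_sqrt (by norm_num)
lemma sq_sqrt6 : √6 ^ 2 = 6 := Real.sq_sqrt (by norm_num)

lemma cy_nn (j : Fin 3) (θ : ℝ) : nn (cy j θ) = 1 + 2 * Real.cos θ ^ 2 := by
  have h3 := sq_sqrt3
  have h2 := sq_sqrt2
  fin_cases j
  · simp [nn, cy, mul_pow, h2]; ring
  · simp only [nn, cy]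
    simp
    linear_combination (1 / 4 + (√2 * Real.cos θ) ^ 2 / 4) * h3 + Real.cos θ ^ 2 * h2
  · simp only [nn, cy]
    simp
    linear_combination (1 / 4 + (√2 * Real.cos θ) ^ 2 / 4) * h3 + Real.cos θ ^ 2 * h2

lemma cy_mm (j : Fin 3) (θ : ℝ) : mm (cy j θ) = 0 := by
  have h6 := sq_sqrt6
  have hc := Real.sin_sq_add_cos_sq θ
  have hn := cy_nn j θ
  have hw : cy j θ 2 = √6 * Real.sin θ := by fin_cases j <;> simp [cy]
  simp only [mm, hn, hw]
  linear_combination Real.sin θ ^ 2 * h6 + 6 * hc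

lemma cy_ell (j : Fin 3) (θ : ℝ) : ell j (cy j θ) = 0 := by
  have h3 := sq_sqrt3
  fin_cases j
  · simp [ell, cy]
  · simp only [ell, cy]
    simp
    linear_combination (-1 / 4) * h3
  · simp only [ell, cy]
    simp
    linear_combination (-1 / 4) * h3

lemma tt_zero_of_ell (hreg : SigRegStatement) {x : E3} {j : Fin 3} (h : ell j x = 0) :
    tt x = 0 := by
  rw [hreg.1 x]
  fin_cases j
  · have h : ell 0 x = 0 := h
    rw [h]; ring
  · have h : ell 1 x = 0 := h
    rw [h]; ring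
  · have h : ell 2 x = 0 := h
    rw [h]; ring

lemma cy_surj {x : E3} {j : Fin 3} (h : ell j x = 0) (hm : mm x = 0) : ∃ θ, cy j θ = x := by
  have h3 := sq_sqrt3
  have h2 := sq_sqrt2
  have h6 := sq_sqrt6
  have p2 : √2 ≠ 0 := by positivity
  have p6 : √6 ≠ 0 := by positivity
  simp only [mm, nn] at hm
  fin_cases j
  · have h : 1 - x 1 = 0 := h
    obtain ⟨θ, hc, hs⟩ := exists_angle (a := x 0 / √2) (b := x 2 / √6) (by
      rw [div_pow, div_pow, h2, h6]
      have : x 1 = 1 := by linarith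
      rw [this] at hm; linarith)
    refine ⟨θ, ?_⟩
    ext i; fin_cases i
    · simp [cy, hc]; field_simp
    · simp [cy]; linarith
    · simp [cy, hs]; field_simp
  · have h : 1 + (x 1 + √3 * x 0) / 2 = 0 := h
    have hx1 : x 1 = -2 - √3 * x 0 := by linarith
    obtain ⟨θ, hc, hs⟩ := exists_angle (a := (-2 * x 0 - √3) / √2) (b := x 2 / √6) (by
      rw [div_pow, div_pow, h2, h6]
      rw [hx1] at hm
      linear_combination (1 / 6) * hm - (x 0 ^ 2 / 2) * h3 + (1 / 2) * h3)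
    refine ⟨θ, ?_⟩
    have hc' : √2 * Real.cos θ = -2 * x 0 - √3 := by rw [hc]; field_simp
    ext i; fin_cases i
    · simp only [cy, hc']; simp; ring
    · simp only [cy, hc']; simp; linear_combination (-1 / 2) * h3 - hx1
    · simp [cy, hs]; field_simp
  · have h : 1 + (x 1 - √3 * x 0) / 2 = 0 := h
    have hx1 : x 1 = -2 + √3 * x 0 := by linarith
    obtain ⟨θ, hc, hs⟩ := exists_angle (a := (2 * x 0 - √3) / √2) (b := x 2 / √6) (by
      rw [div_pow, div_pow, h2, h6]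
      rw [hx1] at hm
      linear_combination (1 / 6) * hm - (x 0 ^ 2 / 2) * h3 + (1 / 2) * h3)
    refine ⟨θ, ?_⟩
    have hc' : √2 * Real.cos θ = 2 * x 0 - √3 := by rw [hc]; field_simp
    ext i; fin_cases i
    · simp only [cy, hc']; simp; ring
    · simp only [cy, hc']; simp; linear_combination (-1 / 2) * h3 - hx1
    · simp [cy, hs]; field_simp

lemma sigpart_label {ρ l : ℝ} {x : E3} (h : x ∈ SigPart ρ) : ((x, 0) : E3 × ℂ) ∈ Surf ρ l :=
  Or.inr ⟨h, rfl⟩

/-! ### `Strong` is monotone and local -/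

lemma strong_mono {c c' : ℝ} {ϖ : E3 → ℝ} {X : E2 → E3} {a : E2} (h : Strong c' ϖ X a)
    (hc : c ≤ c') (hϖ : 0 ≤ ϖ (X a)) : Strong c ϖ X a := by
  intro α hα hk
  obtain ⟨u, h1, h2⟩ := h α hα hk
  refine ⟨u, h1, le_trans ?_ h2⟩
  have : 0 ≤ ϖ (X a) * ‖α‖ * ‖fderiv ℝ X a u‖ ^ 2 := by positivity
  nlinarith

lemma strong_congr {c : ℝ} {ϖ : E3 → ℝ} {X Y : E2 → E3} {a : E2} (h : Strong c ϖ X a)
    (he : X =ᶠ[𝓝 a] Y) : Strong c ϖ Y a := by
  have h1 : fderiv ℝ X a = fderiv ℝ Y a := he.fderiv_eq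
  have h2 : fderiv ℝ (fderiv ℝ X) a = fderiv ℝ (fderiv ℝ Y) a := he.fderiv.fderiv_eq
  have h3 : X a = Y a := he.eq_of_nhds
  intro α hα hk
  obtain ⟨u, h4, h5⟩ := h α hα (by rw [h1]; exact hk)
  refine ⟨u, ?_, ?_⟩
  · simpa [D2, h2] using h4
  · simpa [D2, h2, h1, h3] using h5

lemma varpi_nonneg (l : ℝ) (x : E3) : 0 ≤ varpi l x := by
  have := nn_nonneg x
  simp only [varpi, flc, flr]; positivity

/-! ### the model -/

section

variable {ρ l : ℝ}

/-- the projection to space -/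
noncomputable def pr (p : Surf ρ l) : E3 := (p : E3 × ℂ).1

lemma cases' (hreg : SigRegStatement) (hfl : FloorRegStatement) (hp : Par ρ l) (p : Surf ρ l) :
    (∃ b, nn (floorX ρ l b) ≤ 4 * ρ ^ 2 ∧ (p : E3 × ℂ) = floorP ρ l b) ∨
    ((p : E3 × ℂ).1 ∈ SigPart ρ ∧ (p : E3 × ℂ).2 = 0 ∧
      (4 * ρ ^ 2 < nn (p : E3 × ℂ).1 ∨ 1 / 8 < |(p : E3 × ℂ).1 2 + 1|)) :=
  surf_cases hreg hfl hp p.2

lemma floor_case (hfl : FloorRegStatement) (hp : Par ρ l) {z : E3 × ℂ}
    (h : ∃ b, nn (floorX ρ l b) ≤ 4 * ρ ^ 2 ∧ z = floorP ρ l b) :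
    z.1 ∈ PrismO ∧ mm z.1 < 0 ∧ Lam z.1 < 0 := by
  obtain ⟨b, hb, rfl⟩ := h
  exact floor_pt hfl hp hb

lemma roof_point {x : E3} (hF : FS x = 0) (hn : nn x = 0) (hL : Lam x < 0)
    (hw : 1 / 8 < |x 2 + 1|) : x = !₂[0, 0, 1] := by
  have hx0 : x 0 = 0 := by
    have : nn x = x 0 ^ 2 + x 1 ^ 2 := rfl
    nlinarith [sq_nonneg (x 0), sq_nonneg (x 1)]
  have hx1 : x 1 = 0 := by
    have : nn x = x 0 ^ 2 + x 1 ^ 2 := rfl
    nlinarith [sq_nonneg (x 0), sq_nonneg (x 1)]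
  have ht : tt x = 4 := by simp [tt, nn, cc, hx0, hx1]
  have hs : √(tt x) = 2 := by
    rw [ht, show (4 : ℝ) = 2 ^ 2 by norm_num]; exact Real.sqrt_sq (by norm_num)
  have hm : mm x = x 2 ^ 2 - 9 := by simp only [mm, hn]; ring
  have h1 : (x 2 ^ 2 - 1) * (x 2 ^ 2 - 17) = 0 := by
    have : FS x = mm x ^ 2 - 16 * tt x := rfl
    rw [this, hm, ht] at hF; linear_combination hF
  have h2 : x 2 ^ 2 < 17 := by
    simp only [Lam, hs, hm] at hL; linarith
  have h3 : x 2 ^ 2 = 1 := by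
    rcases mul_eq_zero.mp h1 with h | h
    · linarith
    · linarith
  have h4 : x 2 = 1 := by
    rcases sq_eq_one_iff.mp h3 with h | h
    · exact h
    · rw [h] at hw; norm_num at hw
  ext i; fin_cases i
  · simpa using hx0
  · simpa using hx1
  · simpa using h4

lemma inner_small (hreg : SigRegStatement) (hp : Par ρ l) {x : E3} (hF : FS x = 0)
    (hL : Lam x < 0) (hor : 4 * ρ ^ 2 < nn x ∨ 1 / 8 < |x 2 + 1|) :
    4 * ρ ^ 2 ≤ nn x ∨ 0 ≤ x 2 := by
  rcases hor with h | h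
  · exact Or.inl h.le
  · by_contra hc
    push Not at hc
    have hs := par_small hp
    have hn : nn x ≤ 1 / 1000 := by linarith [hc.1]
    have hm : mm x < 0 := by
      -- mm = ± 4 sqrt tt, and Lam < 0
      have hb := sqrt_tt_bounds (x := x) (by linarith)
      have h1 : mm x ^ 2 = (4 * √(tt x)) ^ 2 := by
        have htt : 0 ≤ tt x := by
          have : FS x = mm x ^ 2 - 16 * tt x := rfl
          nlinarith [sq_nonneg (mm x)]
        rw [mul_pow, Real.sq_sqrt htt]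
        have : FS x = mm x ^ 2 - 16 * tt x := rfl
        linarith
      rcases sq_eq_sq_iff_eq_or_eq_neg.mp h1 with h2 | h2
      · simp only [Lam, h2] at hL; linarith
      · rw [h2]; linarith [hb.1]
    have := (FS_floor hreg hF hn hc.2 hm).2
    linarith

end

theorem cyc_preconnected (hreg : SigRegStatement) (hfl : FloorRegStatement) {ρ l : ℝ}
    (hp : Par ρ l) (j : Fin 3) :
    IsPreconnected {p : Surf ρ l | ell j (p : E3 × ℂ).1 = 0} := by
  have hs := par_small hp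
  have hmem : ∀ θ, ((cy j θ, (0 : ℂ)) : E3 × ℂ) ∈ Surf ρ l := by
    intro θ
    apply sigpart_label
    have hn := cy_nn j θ
    have hc := Real.cos_sq_le_one θ
    have hc0 := sq_nonneg (Real.cos θ)
    refine ⟨?_, by rw [hn]; linarith, Or.inl (by rw [hn]; linarith)⟩
    have : FS (cy j θ) = mm (cy j θ) ^ 2 - 16 * tt (cy j θ) := rfl
    rw [this, cy_mm, tt_zero_of_ell hreg (cy_ell j θ)]; ring
  have hcont : Continuous (fun θ => (⟨(cy j θ, (0 : ℂ)), hmem θ⟩ : Surf ρ l)) :=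
    Continuous.subtype_mk ((cy_cont j).prodMk continuous_const) _
  have hset : {p : Surf ρ l | ell j (p : E3 × ℂ).1 = 0}
      = Set.range (fun θ => (⟨(cy j θ, (0 : ℂ)), hmem θ⟩ : Surf ρ l)) := by
    ext p
    constructor
    · intro h
      have h : ell j (p : E3 × ℂ).1 = 0 := h
      rcases cases' hreg hfl hp p with hc | ⟨hx, h0, -⟩
      · have := (floor_case hfl hp hc).1 j
        rw [h] at this; exact absurd this (lt_irrefl _)
      · have hF : mm (p : E3 × ℂ).1 ^ 2 - 16 * tt (p : E3 × ℂ).1 = 0 := hx.1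
        rw [tt_zero_of_ell hreg h] at hF
        have hm : mm (p : E3 × ℂ).1 = 0 := by
          have : mm (p : E3 × ℂ).1 ^ 2 = 0 := by linarith
          exact pow_eq_zero_iff (by norm_num) |>.mp this
        obtain ⟨θ, hθ⟩ := cy_surj h hm
        refine ⟨θ, Subtype.ext ?_⟩
        exact Prod.ext hθ h0.symm
    · rintro ⟨θ, rfl⟩
      exact cy_ell j θ
  rw [hset]
  exact isPreconnected_range hcont

theorem model (hreg : SigRegStatement) (hfl : FloorRegStatement) (hfs : FloorStrongStatement)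
    (hfe : FloorEscapeStatement) (hss : SigStrongStatement) (hre : RoofEscapeStatement)
    (hls : LevelStrongStatement) (hcf : ChartFloorStatement) (hcs : ChartSigStatement) :
    ModelStatement := by
  intro ρ l hp
  have hs := par_small hp
  have hρ2 : 0 < ρ ^ 2 := by have := hp.hρ; positivity
  have hl1 : l ≤ 1 / 100 := by have := hp.hl'; have := hp.hρ'; linarith
  obtain ⟨r1, r2, r3, r4, r5, r6, r7, r8⟩ := id hreg
  have contf : Continuous (fun p : Surf ρ l => (p : E3 × ℂ).1) := by fun_prop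
  refine ⟨contf, ?_, ?_, ?_, ?_, ?_, ?_, ?_, ?_⟩
  · -- hull
    intro p
    rcases cases' hreg hfl hp p with hc | ⟨hx, -, -⟩
    · obtain ⟨h1, -, h3⟩ := floor_case hfl hp hc
      exact ⟨fun j => (h1 j).le, h3.le⟩
    · obtain ⟨h1, -, h3⟩ := r2 _ hx.1 hx.2.1.le
      exact ⟨h1, h3⟩
  · -- charts
    intro p
    rcases cases' hreg hfl hp p with ⟨b, hb, hpb⟩ | ⟨hx, -, hor⟩
    · obtain ⟨V, φ, h, -⟩ := hcf ρ l hp b p (by linarith) hpb
      exact ⟨V, φ, b, h⟩
    · obtain ⟨V, φ, a, h, -⟩ := hcs ρ l hp p hx hor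
      exact ⟨V, φ, a, h⟩
  · -- onto
    intro x hx hL
    obtain ⟨hF, hm⟩ := r4 x hx hL
    have hn := r3 x hx hF
    refine ⟨⟨(x, 0), sigpart_label ⟨hF, hn, ?_⟩⟩, rfl⟩
    by_cases hc : 4 * ρ ^ 2 ≤ nn x
    · exact Or.inl hc
    · right
      push Not at hc
      have h1 : (17 / 2 : ℝ) ≤ x 2 ^ 2 := by
        have : mm x = x 2 ^ 2 + 3 * nn x - 9 := rfl
        nlinarith
      rcases le_total 0 (x 2) with h | h
      · have : (1 : ℝ) ≤ x 2 := by nlinarith
        rw [abs_of_nonneg (by linarith)]; linarith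
      · have : x 2 ≤ -2 := by nlinarith
        rw [abs_of_nonpos (by linarith)]; linarith
  · -- inj
    intro p p' hL he
    have he' : (p : E3 × ℂ).1 = (p' : E3 × ℂ).1 := he
    have hL' : Lam (p : E3 × ℂ).1 = 0 := hL
    rcases cases' hreg hfl hp p with hc | ⟨-, h0, -⟩
    · have := (floor_case hfl hp hc).2.2
      rw [hL'] at this; exact absurd this (lt_irrefl _)
    · rcases cases' hreg hfl hp p' with hc' | ⟨-, h0', -⟩
      · have := (floor_case hfl hp hc').2.2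
        rw [← he', hL'] at this; exact absurd this (lt_irrefl _)
      · exact Subtype.ext (Prod.ext he' (by rw [h0, h0']))
  · -- outer
    intro p hpr hL
    have hpr' : (p : E3 × ℂ).1 ∈ PrismO := hpr
    have hL' : Lam (p : E3 × ℂ).1 = 0 := hL
    have htp := tt_pos_of_prismO hreg hpr'
    have hmp : 0 < mm (p : E3 × ℂ).1 := by
      have : Lam (p : E3 × ℂ).1 = mm (p : E3 × ℂ).1 - 4 * √(tt (p : E3 × ℂ).1) := rfl
      have := Real.sqrt_pos.mpr htp
      linarith
    have hmc : Continuous (fun p : Surf ρ l => mm (p : E3 × ℂ).1) := by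
      simp only [mm, nn]; fun_prop
    have hev : ∀ᶠ p' : Surf ρ l in 𝓝 p, 0 < mm (p' : E3 × ℂ).1 :=
      hmc.continuousAt.eventually (lt_mem_nhds hmp)
    filter_upwards [hev] with p' hp'
    rcases cases' hreg hfl hp p' with hc' | ⟨hx, -, -⟩
    · have := (floor_case hfl hp hc').2.1
      linarith
    · have hF : mm (p' : E3 × ℂ).1 ^ 2 - 16 * tt (p' : E3 × ℂ).1 = 0 := hx.1
      have htt : 0 ≤ tt (p' : E3 × ℂ).1 := by nlinarith [sq_nonneg (mm (p' : E3 × ℂ).1)]
      have h1 : mm (p' : E3 × ℂ).1 ^ 2 = (4 * √(tt (p' : E3 × ℂ).1)) ^ 2 := by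
        rw [mul_pow, Real.sq_sqrt htt]; linarith
      have h2 : mm (p' : E3 × ℂ).1 = 4 * √(tt (p' : E3 × ℂ).1) := by
        have h0 := Real.sqrt_nonneg (tt (p' : E3 × ℂ).1)
        nlinarith [sq_nonneg (mm (p' : E3 × ℂ).1 - 4 * √(tt (p' : E3 × ℂ).1)),
          sq_nonneg (mm (p' : E3 × ℂ).1 + 4 * √(tt (p' : E3 × ℂ).1))]
      show mm (p' : E3 × ℂ).1 - 4 * √(tt (p' : E3 × ℂ).1) = 0
      linarith
  · -- cyc
    intro j
    exact cyc_preconnected hreg hfl hp j
  · -- cyc0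
    intro p j h
    have h : ell j (p : E3 × ℂ).1 = 0 := h
    show mm (p : E3 × ℂ).1 = 0
    rcases cases' hreg hfl hp p with hc | ⟨hx, -, -⟩
    · have := (floor_case hfl hp hc).1 j
      rw [h] at this; exact absurd this (lt_irrefl _)
    · have hF : mm (p : E3 × ℂ).1 ^ 2 - 16 * tt (p : E3 × ℂ).1 = 0 := hx.1
      rw [tt_zero_of_ell hreg h] at hF
      have : mm (p : E3 × ℂ).1 ^ 2 = 0 := by linarith
      exact pow_eq_zero_iff (by norm_num) |>.mp this
  · -- strong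
    obtain ⟨c1, hc1, hf1⟩ := hfs ρ l hp
    obtain ⟨c2, hc2, hf2⟩ := hss ρ l hp.hρ hp.hl hl1
    refine ⟨min c1 c2, lt_min hc1 hc2, ?_⟩
    intro p hpr hL
    have hpr' : (p : E3 × ℂ).1 ∈ PrismO := hpr
    have hL' : Lam (p : E3 × ℂ).1 < 0 := hL
    rcases cases' hreg hfl hp p with ⟨b, hb, hpb⟩ | ⟨hx, h0, hor⟩
    · obtain ⟨V, φ, hch, hV⟩ := hcf ρ l hp b p (by linarith) hpb
      have hVn : V ∈ 𝓝 b := hch.isOpen.mem_nhds hch.mem
      by_cases hflat : FlatB b
      · right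
        obtain ⟨hw, hesc⟩ := hfe ρ l hp b hflat
        have hpb1 : (p : E3 × ℂ).1 = floorX ρ l b := by rw [hpb]; rfl
        refine ⟨by show varpi l (p : E3 × ℂ).1 = 0; rw [hpb1]; exact hw, ?_⟩
        intro v hv
        obtain ⟨κ, hκ, hfr⟩ := hesc v hv
        refine ⟨κ, hκ, ?_⟩
        have ht : Tendsto φ (𝓝 b) (𝓝 p) := by
          have := (hch.cont.continuousAt hVn).tendsto
          rwa [hch.map] at this
        apply ht.frequently
        refine (hfr.and_eventually (eventually_of_mem hVn fun x hx => hx)).mono ?_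
        rintro b' ⟨⟨h1, h2⟩, hb'⟩
        have hφ : ((φ b' : Surf ρ l) : E3 × ℂ).1 = floorX ρ l b' := by rw [hV b' hb']; rfl
        show κ * ‖((φ b' : Surf ρ l) : E3 × ℂ).1 - (p : E3 × ℂ).1‖ ^ 3
            ≤ ⟪v, ((φ b' : Surf ρ l) : E3 × ℂ).1 - (p : E3 × ℂ).1⟫ ∧
          ((φ b' : Surf ρ l) : E3 × ℂ).1 ≠ (p : E3 × ℂ).1
        rw [hφ, hpb1]
        exact ⟨h1, h2⟩
      · left
        refine ⟨V, φ, b, hch, ?_⟩
        have he : floorX ρ l =ᶠ[𝓝 b] ((fun p : Surf ρ l => (p : E3 × ℂ).1) ∘ φ) := by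
          filter_upwards [hVn] with b' hb'
          show floorX ρ l b' = ((φ b' : Surf ρ l) : E3 × ℂ).1
          rw [hV b' hb']; rfl
        have hst := hf1 b hb hflat
        exact strong_mono (strong_congr hst he) (min_le_left _ _) (varpi_nonneg _ _)
    · obtain ⟨hF, hn4, hor2⟩ := hx
      by_cases hn0 : nn (p : E3 × ℂ).1 = 0
      · right
        have hw : 1 / 8 < |(p : E3 × ℂ).1 2 + 1| := by
          rcases hor with h | h
          · rw [hn0] at h; linarith
          · exact h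
        have hq := roof_point hF hn0 hL' hw
        constructor
        · show varpi l (p : E3 × ℂ).1 = 0
          have : flr (p : E3 × ℂ).1 = 0 := by
            rw [hq]; simp [flr, nn]
          simp [varpi, this]
        · intro v hv
          obtain ⟨κ, hκ, hfr⟩ := hre v hv
          refine ⟨κ, hκ, ?_⟩
          rw [Filter.frequently_iff]
          intro U hU
          obtain ⟨W, hW, hWU⟩ := mem_nhds_subtype _ _ _ |>.mp hU
          have hpe : (p : E3 × ℂ) = ((!₂[0, 0, 1] : E3), (0 : ℂ)) := Prod.ext hq h0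
          rw [hpe] at hW
          have hc1 : Continuous (fun x : E3 => ((x, 0) : E3 × ℂ)) := by fun_prop
          have hW' : ∀ᶠ x in 𝓝 (!₂[0, 0, 1] : E3), ((x, 0) : E3 × ℂ) ∈ W :=
            hc1.continuousAt.eventually hW
          have hn' : ∀ᶠ x in 𝓝 (!₂[0, 0, 1] : E3), nn x < 4 := by
            have : Continuous nn := by unfold nn; fun_prop
            refine this.continuousAt.eventually (gt_mem_nhds ?_)
            simp [nn]
          have hw' : ∀ᶠ x in 𝓝 (!₂[0, 0, 1] : E3), 0 < x 2 := by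
            have : Continuous (fun x : E3 => x 2) := by fun_prop
            refine this.continuousAt.eventually (lt_mem_nhds ?_)
            simp
          obtain ⟨x, ⟨h1, h2, h3⟩, h4, h5, h6⟩ :=
            (hfr.and_eventually (hW'.and (hn'.and hw'))).exists
          have hxS : ((x, 0) : E3 × ℂ) ∈ Surf ρ l := by
            apply sigpart_label
            refine ⟨h1, h5, Or.inr ?_⟩
            rw [abs_of_nonneg (by linarith)]; linarith
          refine ⟨⟨(x, 0), hxS⟩, hWU h4, ?_⟩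
          show κ * ‖x - (p : E3 × ℂ).1‖ ^ 3 ≤ ⟪v, x - (p : E3 × ℂ).1⟫ ∧ x ≠ (p : E3 × ℂ).1
          rw [hq]
          exact ⟨h2, h3⟩
      · left
        obtain ⟨V, φ, a, hch, hV⟩ := hcs ρ l hp p ⟨hF, hn4, hor2⟩ hor
        refine ⟨V, φ, a, hch, ?_⟩
        have hVn : V ∈ 𝓝 a := hch.isOpen.mem_nhds hch.mem
        have hpos : 0 < nn (p : E3 × ℂ).1 := lt_of_le_of_ne (nn_nonneg _) (Ne.symm hn0)
        have hsl := hf2 _ hF hpr' hL' (inner_small hreg hp hF hL' hor) hpos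
        have hfa : ((fun p : Surf ρ l => (p : E3 × ℂ).1) ∘ φ) a = (p : E3 × ℂ).1 := by
          show ((φ a : Surf ρ l) : E3 × ℂ).1 = _
          rw [hch.map]
        have hFSsm : ContDiff ℝ ∞ FS := by
          unfold FS mm tt nn cc; fun_prop
        have := hls FS ((fun p : Surf ρ l => (p : E3 × ℂ).1) ∘ φ) a c2 (varpi l) hFSsm
          (hch.smooth.contDiffAt hVn) (hch.imm a hch.mem)
          (eventually_of_mem hVn fun b hb => hV b hb)
          (by rw [hfa]; exact r5 _ hF hn4.le) (by rw [hfa]; exact hsl)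
        exact strong_mono this (min_le_right _ _) (varpi_nonneg _ _)

end Pool.Agent.Tight.H24
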