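import Pool.Agent.Lib.MP_a31e1e_gt.Assembly
import Pool.Agent.Lib.MP_a31e1e_gt.CWDefs
import Pool.Agent.Lib.MP_a31e1e_gt.H3.Atlas
import Pool.Agent.Lib.MP_a31e1e_gt.H5.Fex
import Pool.Agent.Lib.MP_a31e1e_gt.H6.Diffeo
import Pool.Agent.Lib.MP_a31e1e_gt.H6.Psib
import Pool.Agent.Lib.MP_a31e1e_gt.H7.Trans
import Pool.Agent.Lib.MP_a31e1e_gt.H19.SigReg
import Pool.Agent.Lib.MP_a31e1e_gt.H19.StrongPert
import Pool.Agent.Lib.MP_a31e1e_gt.H19.WeierMod
import Pool.Agent.Lib.MP_a31e1e_gt.H24.Model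
import Pool.Agent.Lib.MP_a31e1e_gt.H25.Alg
import Pool.Agent.Lib.MP_a31e1e_gt.H25.CritG
import Pool.Agent.Lib.MP_a31e1e_gt.H27.StrongCurv
import Pool.Agent.Lib.MP_a31e1e_gt.H29.BordId
import Pool.Agent.Lib.MP_a31e1e_gt.H29.Delta
import Pool.Agent.Lib.MP_a31e1e_gt.H29.LevelChart
import Pool.Agent.Lib.MP_a31e1e_gt.H29.SigDer
import Pool.Agent.Lib.MP_a31e1e_gt.H50.GradHull
import Pool.Agent.Lib.MP_a31e1e_gt.H58.Mchs
import Pool.Agent.Lib.MP_a31e1e_gt.H58.Mcomp
import Pool.Agent.Lib.MP_a31e1e_gt.H62.CwSurj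
import Pool.Agent.Lib.MP_a31e1e_gt.H64.Clopen
import Pool.Agent.Lib.MP_a31e1e_gt.H64.Face
import Pool.Agent.Lib.MP_a31e1e_gt.H68.Conv
import Pool.Agent.Lib.MP_a31e1e_gt.H68.Tight
import Pool.Agent.Lib.MP_a31e1e_gt.H68.TPPCrit
import Pool.Agent.Lib.MP_a31e1e_gt.H75.FloorInj
import Pool.Agent.Lib.MP_a31e1e_gt.H75.FloorStrong
import Pool.Agent.Lib.MP_a31e1e_gt.H83.LevelStrong
import Pool.Agent.Lib.MP_a31e1e_gt.H88.Arc
import Pool.Agent.Lib.MP_a31e1e_gt.H88.CwBuild
import Pool.Agent.Lib.MP_a31e1e_gt.H88.CwCont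
import Pool.Agent.Lib.MP_a31e1e_gt.H88.Kite
import Pool.Agent.Lib.MP_a31e1e_gt.H99.Zmap

/-!
# The main theorem from the remaining modules (project TIGHT)
-/

namespace Pool.Agent.Tight

theorem conv' : ConvStatement := H68.conv H19.sigReg
theorem gradHull' : GradHullStatement := H50.gradHull H19.sigReg H68.sign
theorem face' : FaceStatement := H64.face conv' H68.sign H19.sigReg
theorem tight' : TightStatement :=
  H68.tight H68.sign gradHull' face' H19.strongPert H19.escapePert H68.tppCrit H19.sigReg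

theorem main_of_rest (hFR : FloorRegStatement) (hCZ : CoreZeroStatement)
    (hCC : CoreCurvStatement) (hCI : CoreIneqStatement) (hFE : FloorEscapeStatement)
    (hSS : SigStrongStatement) (hRE : RoofEscapeStatement) (hCF : ChartFloorStatement)
    (h3 : CWInjStatement) (h4 : CWCodeStatement) (h5 : CWDisjStatement)
    (h7 : CWCovStatement) (h8 : CWBdryStatement) : MainStatement := by
  have hComp : CompStatement := H58.mcomp hFR H75.floorInj H19.sigReg
  have hFex : FexStatement := H5.fex hFR hCZ H19.sigReg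
  have hAlg : AlgStatement := H25.alg hFex H25.critG H19.weier H99.zmap H6.psiBounds
    H6.diffeo H19.sigReg hComp
  have hFS : FloorStrongStatement := H75.floorStrong H27.strongOfCurv hCC hCI hFR
  have hCS : ChartSigStatement := H58.mchs H29.levelChart H19.sigReg hFR
  have hModel : ModelStatement := H24.model H19.sigReg hFR hFS hFE hSS hRE H83.levelStrong hCF hCS
  have hCW : CWStatement := cw_of_modules H88.cwBuild H88.cwCont h3 h4 h5
    (H62.cwSurj H88.kite H88.arcs hFR H19.sigReg) h7 h8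
  exact main_of_modules H7.trans_holds hComp hModel tight' hAlg hCW H3.atlas H64.clopen

end Pool.Agent.Tight
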