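import Pool.Agent.Lib.MP_a31e1e_gt.H24.Pre
import Pool.Agent.Lib.MP_a31e1e_gt.H27.FloorReg
import Pool.Agent.Lib.MP_a31e1e_gt.H27.StrongBord
import Pool.Agent.Lib.MP_a31e1e_gt.H63.CoreZero
import Pool.Agent.Lib.MP_a31e1e_gt.H63.CoreCurv
import Pool.Agent.Lib.MP_a31e1e_gt.H63.CoreIneq
import Pool.Agent.Lib.MP_a31e1e_gt.H42.SigStrong
import Pool.Agent.Lib.MP_a31e1e_gt.H42.RoofEsc
import Pool.Agent.Lib.MP_a31e1e_gt.H83.ChartFloor
import Pool.Agent.Lib.MP_a31e1e_gt.H88.CwInj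
import Pool.Agent.Lib.MP_a31e1e_gt.H6.CWCode
import Pool.Agent.Lib.MP_a31e1e_gt.H58.Disj
import Pool.Agent.Lib.MP_a31e1e_gt.H58.Cov

/-!
# The main theorem from the two last modules (project TIGHT)
-/

namespace Pool.Agent.Tight

theorem main_of_two (hFE : FloorEscapeStatement) (h8 : CWBdryStatement) : MainStatement :=
  main_of_rest H27.floorReg core_zero core_curv core_ineq hFE
    (H42.sigStrong H27.strongOfBord H29.sigDer H29.bordId H29.delta H19.sigReg)
    H42.roofEscape (H83.mchf H27.floorReg H75.floorInj H19.sigReg)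
    (H88.cwInj H75.floorInj) (H6.Code.cwCode H88.kite H88.arcs H27.floorReg)
    (H58.cwDisj H27.floorReg H75.floorInj) (H58.cwCov H27.floorReg H75.floorInj H19.sigReg) h8

end Pool.Agent.Tight
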